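import Pool.Agent.NL.StmtsB

/-! NL, row BLK (helper85): the hierarchical block. -/

set_option autoImplicit false

open MeasureTheory Filter Topology

noncomputable section

namespace Pool.Agent.NL.H85

open Pool.Agent.NL

/-- the product of the factors -/
theorem prod_le (η : ℝ) (h0 : 0 < η) (h1 : η ≤ 1) (N : ℕ) :
    ∏ m ∈ Finset.Ico 1 N, (1 + η / 4 * (1 / 2 : ℝ) ^ m) ≤ 1 + η := by
  have hnn : ∀ m : ℕ, 0 ≤ η / 4 * (1 / 2 : ℝ) ^ m := fun m => by positivity
  have h2 : ∏ m ∈ Finset.Ico 1 N, (1 + η / 4 * (1 / 2 : ℝ) ^ m) ≤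
      Real.exp (∑ m ∈ Finset.Ico 1 N, η / 4 * (1 / 2 : ℝ) ^ m) := by
    rw [Real.exp_sum]
    refine Finset.prod_le_prod (fun m _ => by linarith [hnn m]) fun m _ => ?_
    rw [add_comm]
    exact Real.add_one_le_exp _
  have h3 : ∑ m ∈ Finset.Ico 1 N, η / 4 * (1 / 2 : ℝ) ^ m ≤ η / 2 := by
    calc ∑ m ∈ Finset.Ico 1 N, η / 4 * (1 / 2 : ℝ) ^ m
        ≤ ∑ m ∈ Finset.range N, η / 4 * (1 / 2 : ℝ) ^ m := by
          refine Finset.sum_le_sum_of_subset_of_nonneg ?_ fun m _ _ => hnn m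
          intro m hm
          rw [Finset.mem_Ico] at hm
          exact Finset.mem_range.2 hm.2
      _ = η / 4 * ∑ m ∈ Finset.range N, (1 / 2 : ℝ) ^ m := by rw [Finset.mul_sum]
      _ ≤ η / 4 * 2 := by
          refine mul_le_mul_of_nonneg_left (sum_geometric_two_le N) (by linarith)
      _ = η / 2 := by ring
  have h4 : Real.exp (η / 2) ≤ 1 + η := by
    have h5 := Real.abs_exp_sub_one_sub_id_le (x := η / 2) (by
      rw [abs_of_pos (by linarith)]
      linarith)
    have h6 := (abs_le.1 h5).2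
    nlinarith
  exact h2.trans ((Real.exp_le_exp.2 h3).trans h4)

section

variable {X : Type} [NormedAddCommGroup X] [NormedSpace ℝ X]

/-- one more point -/
theorem chn_succ {G : ℝ → Z} {Ψ : X →ₗᵢ[ℝ] Z} {A : Set ℝ} {W : Finset ℝ} {E : Submodule ℝ X}
    {ε : ℕ → ℝ} {N : ℕ} {x : ℕ → ℝ} {s : ℕ → ℕ} (hc : Chn G Ψ A W E ε N x s)
    {j : ℕ} (hj : j < N) {x₁ : ℝ} (hA : x₁ ∈ A) (hW : x₁ ∉ W ∪ (Finset.range N).image x)
    (hg : Gn G Ψ (insert x₁ (W ∪ (Finset.range N).image x)))
    (hn : NrB G Ψ (W ∪ (Finset.range N).image x) (x j) E (ε N) x₁) :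
    Chn G Ψ A W E ε (N + 1) (Function.update x N x₁) (Function.update s N j) ∧
      (Finset.range (N + 1)).image (Function.update x N x₁) =
        insert x₁ ((Finset.range N).image x) := by
  have hx : ∀ i, i < N → Function.update x N x₁ i = x i := fun i hi =>
    Function.update_of_ne (by omega) _ _
  have hs : ∀ i, i < N → Function.update s N j i = s i := fun i hi =>
    Function.update_of_ne (by omega) _ _
  have hxN : Function.update x N x₁ N = x₁ := Function.update_self _ _ _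
  have hsN : Function.update s N j N = j := Function.update_self _ _ _
  have him : ∀ m, m ≤ N → (Finset.range m).image (Function.update x N x₁) =
      (Finset.range m).image x := by
    intro m hm
    refine Finset.image_congr ?_
    intro i hi
    exact hx i (by
      have := Finset.mem_range.1 hi
      omega)
  have hrange : (Finset.range (N + 1)).image (Function.update x N x₁) =
        insert x₁ ((Finset.range N).image x) := by
    rw [Finset.range_add_one, Finset.image_insert, hxN, him N le_rfl]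
  have hni : ∀ i, i < N → x i ≠ x₁ := by
    intro i hi h
    apply hW
    rw [← h]
    exact Finset.mem_union_right _ (Finset.mem_image_of_mem _ (Finset.mem_range.2 hi))
  refine ⟨⟨?_, ?_, ?_, ?_, ?_⟩, hrange⟩
  · intro m hm hmN
    rcases Nat.lt_succ_iff_lt_or_eq.1 hmN with h | h
    · rw [hs m h]
      exact hc.lt m hm h
    · rw [h, hsN]
      exact hj
  · intro a ha b hb hab
    have ha' : a < N + 1 := ha
    have hb' : b < N + 1 := hb
    rcases Nat.lt_succ_iff_lt_or_eq.1 ha' with h1 | h1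
    · rcases Nat.lt_succ_iff_lt_or_eq.1 hb' with h2 | h2
      · rw [hx a h1, hx b h2] at hab
        exact hc.inj h1 h2 hab
      · rw [hx a h1, h2, hxN] at hab
        exact absurd hab (hni a h1)
    · rcases Nat.lt_succ_iff_lt_or_eq.1 hb' with h2 | h2
      · rw [hx b h2, h1, hxN] at hab
        exact absurd hab.symm (hni b h2)
      · rw [h1, h2]
  · intro i hi
    rcases Nat.lt_succ_iff_lt_or_eq.1 hi with h | h
    · rw [hx i h]
      exact hc.mem i h
    · rw [h, hxN]
      exact ⟨hA, fun h' => hW (Finset.mem_union_left _ h')⟩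
  · rw [hrange, Finset.union_insert]
    exact hg
  · intro m hm hmN
    rcases Nat.lt_succ_iff_lt_or_eq.1 hmN with h | h
    · rw [hs m h, hx m h, hx (s m) ((hc.lt m hm h).trans h), him m h.le]
      exact hc.nr m hm h
    · rw [h, hsN, hxN, hx j hj, him N le_rfl]
      exact hn

/-- the growth of the chain -/
theorem grow (gsb : GsbStmt) {f : ℝ → X} {F : ℕ → StrongDual ℝ X} {G : ℝ → Z} {Ψ : X →ₗᵢ[ℝ] Z}
    (hC : Crv f F G Ψ) {δ : ℝ} {A : Set ℝ} (hA : APt G Ψ δ A) {W : Finset ℝ}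
    (hW : ∀ w ∈ W, w ∈ A) {E : Submodule ℝ X} [FiniteDimensional ℝ E] {ε : ℕ → ℝ}
    (hε : ∀ m, 0 < ε m) {e : ℝ} {W' : Finset ℝ} (h : Rch G Ψ e W') :
    ∀ (N : ℕ) (x : ℕ → ℝ) (s : ℕ → ℕ), 1 ≤ N → Chn G Ψ A W E ε N x s →
      (Finset.range N).image x = W' →
      ∃ (N' : ℕ) (x' : ℕ → ℝ) (s' : ℕ → ℕ) (p' : ℝ →₀ ℝ), N ≤ N' ∧ x' 0 = x 0 ∧
        Chn G Ψ A W E ε N' x' s' ∧ Pb p' ∧ p'.support ⊆ (Finset.range N').image x' ∧
        rho Ψ (V G p') < e := by
  induction h with
  | stop W' p hs hp hr =>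
    intro N x s hN hc him
    exact ⟨N, x, s, p, le_rfl, rfl, hc, hp, by rw [him]; exact hs, hr⟩
  | split W' t ht S hS h ih =>
    intro N x s hN hc him
    rw [← him] at ht
    obtain ⟨j, hj, hjt⟩ := Finset.mem_image.1 ht
    rw [Finset.mem_range] at hj
    have hall : ∀ w ∈ W ∪ (Finset.range N).image x, w ∈ A := by
      intro w hw
      rcases Finset.mem_union.1 hw with h1 | h1
      · exact hW w h1
      · obtain ⟨i, hi, hix⟩ := Finset.mem_image.1 h1
        rw [← hix]
        exact (hc.mem i (Finset.mem_range.1 hi)).1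
    have hev := gsb X f F G Ψ hC δ A hA (W ∪ (Finset.range N).image x) hc.gn hall t
      (Finset.mem_union_right _ ht) E (ε N) (hε N)
    obtain ⟨x₁, hxS, hxA, hxW, hxg, hxn⟩ := (hS.and_eventually hev).exists
    rw [← hjt] at hxn
    obtain ⟨hc', him'⟩ := chn_succ hc hj hxA hxW hxg hxn
    obtain ⟨N', x', s', p', hN', hx0, hrest⟩ := ih x₁ hxS (N + 1) _ _ (by omega) hc' (by
      rw [him', him])
    refine ⟨N', x', s', p', by omega, ?_, hrest⟩
    rw [hx0]
    exact Function.update_of_ne (by omega) _ _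

end

theorem blk (gsb : GsbStmt) : BlkStmt := by
  intro X _ _ f F G Ψ hC δ A hA W x₀ hx₀ hx₀W hWA hGn E _ η e hη hη1 he heδ
  have hε : ∀ m : ℕ, 0 < η / 4 * (1 / 2 : ℝ) ^ m := fun m => by positivity
  have him1 : (Finset.range 1).image (fun _ : ℕ => x₀) = {x₀} := by
    simp
  have hc1 : Chn G Ψ A W E (fun m => η / 4 * (1 / 2 : ℝ) ^ m) 1 (fun _ => x₀) (fun _ => 0) := by
    refine ⟨?_, ?_, ?_, ?_, ?_⟩
    · intro m hm hm1
      omega
    · intro a ha b hb _
      have ha' : a < 1 := ha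
      have hb' : b < 1 := hb
      omega
    · intro j _
      exact ⟨hx₀, hx₀W⟩
    · rw [him1, Finset.union_comm, ← Finset.insert_eq]
      exact hGn
    · intro m hm hm1
      omega
  obtain ⟨N, x, s, p', hN, hx0, hc, hp', hsup, hrho⟩ := grow gsb hC hA hWA hε
    (hA.rch x₀ hx₀ e he) 1 (fun _ => x₀) (fun _ => 0) le_rfl hc1 him1
  have hinj : ∀ i ∈ Finset.range N, ∀ j ∈ Finset.range N, x i = x j → i = j := by
    intro i hi j hj h
    exact hc.inj (Finset.mem_range.1 hi) (Finset.mem_range.1 hj) h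
  -- sums over the support
  have hV : V G p' = ∑ j ∈ Finset.range N, p' (x j) • G (x j) := by
    rw [V, Finsupp.linearCombination_apply, Finsupp.sum_of_support_subset p' hsup _ (by simp),
      Finset.sum_image hinj]
  have hS : ∑ j ∈ Finset.range N, p' (x j) = 1 := by
    have h := hp'.2
    rw [Finsupp.sum_of_support_subset p' hsup _ (by simp), Finset.sum_image hinj] at h
    exact h
  have hN2 : 2 ≤ N := by
    by_contra hlt
    have hN1 : N = 1 := by omega
    rw [hN1] at hV hS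
    rw [Finset.sum_range_one, hx0] at hV hS
    rw [hS, one_smul] at hV
    rw [hV] at hrho
    have := hA.far x₀ hx₀
    linarith
  have hne : (Set.range Ψ).Nonempty := ⟨Ψ 0, 0, rfl⟩
  obtain ⟨_, ⟨y, rfl⟩, hy⟩ := (Metric.infDist_lt_iff hne).1 hrho
  rw [dist_eq_norm] at hy
  have hNpos : (0 : ℝ) < N := by
    have : 0 < N := by omega
    exact_mod_cast this
  let U : Z := ∑ j ∈ Finset.range N, (1 / (N : ℝ)) • G (x j)
  have hU : ‖U‖ ≤ 1 := by
    calc ‖U‖ ≤ ∑ j ∈ Finset.range N, ‖(1 / (N : ℝ)) • G (x j)‖ := norm_sum_le _ _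
      _ ≤ ∑ j ∈ Finset.range N, 1 / (N : ℝ) := by
          refine Finset.sum_le_sum fun j _ => ?_
          rw [norm_smul, Real.norm_of_nonneg (by positivity)]
          exact mul_le_of_le_one_right (by positivity) (hC.bdd _)
      _ = 1 := by
          rw [Finset.sum_const, Finset.card_range, nsmul_eq_mul]
          field_simp
  have hT : ‖V G p'‖ ≤ 1 := by
    rw [hV]
    calc ‖∑ j ∈ Finset.range N, p' (x j) • G (x j)‖
        ≤ ∑ j ∈ Finset.range N, ‖p' (x j) • G (x j)‖ := norm_sum_le _ _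
      _ ≤ ∑ j ∈ Finset.range N, p' (x j) := by
          refine Finset.sum_le_sum fun j _ => ?_
          rw [norm_smul, Real.norm_of_nonneg (hp'.1 _)]
          exact mul_le_of_le_one_right (hp'.1 _) (hC.bdd _)
      _ = 1 := hS
  let gap : ℝ := e - ‖V G p' - Ψ y‖
  have hgap : 0 < gap := sub_pos.2 hy
  let θ : ℝ := min (1 / 2) (gap / 4)
  have hθ0 : 0 < θ := lt_min (by norm_num) (by positivity)
  have hθ1 : θ ≤ 1 / 2 := min_le_left _ _
  have hθ2 : θ ≤ gap / 4 := min_le_right _ _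
  refine ⟨fun m => η / 4 * (1 / 2 : ℝ) ^ m, N, x, s, fun j => (1 - θ) * p' (x j) + θ * (1 / N), y,
    fun m => (hε m).le, prod_le η hη hη1 N, hc, hx0, hN2, ?_, ?_, ?_⟩
  · intro j _
    have h1 : 0 ≤ (1 - θ) * p' (x j) := mul_nonneg (by linarith) (hp'.1 _)
    have h2 : 0 < θ * (1 / (N : ℝ)) := by positivity
    linarith
  · rw [Finset.sum_add_distrib, ← Finset.mul_sum, ← Finset.mul_sum, hS, Finset.sum_const,
      Finset.card_range, nsmul_eq_mul]
    field_simp
    ring
  · have h1 : ∑ j ∈ Finset.range N, ((1 - θ) * p' (x j) + θ * (1 / (N : ℝ))) • G (x j) =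
        (1 - θ) • V G p' + θ • U := by
      rw [hV]
      simp only [U, Finset.smul_sum, add_smul, Finset.sum_add_distrib, smul_smul]
    rw [h1]
    have h2 : (1 - θ) • V G p' + θ • U - Ψ y = (V G p' - Ψ y) + θ • (U - V G p') := by
      module
    rw [h2]
    have h3 : ‖θ • (U - V G p')‖ ≤ θ * 2 := by
      rw [norm_smul, Real.norm_of_nonneg hθ0.le]
      refine mul_le_mul_of_nonneg_left ?_ hθ0.le
      calc ‖U - V G p'‖ ≤ ‖U‖ + ‖V G p'‖ := norm_sub_le _ _
        _ ≤ 2 := by linarith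
    have h4 := norm_add_le (V G p' - Ψ y) (θ • (U - V G p'))
    have h5 : gap = e - ‖V G p' - Ψ y‖ := rfl
    linarith

end Pool.Agent.NL.H85
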